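import Pool.Agent.Helper28.Ram.Goals

/-!
# The operations on digits are computed in linear space
-/

namespace Pool.Agent.Helper37.Ram

open Pool.Agent.Helper65.LinSpace Pool.Agent.Helper78.Mpc Pool.Agent.Helper28.Ram Finset

variable {α β : Type} [Ctx α] [Ctx β]

theorem LSM.pull {m : α → Mach} {C : α → ℕ} (h : LSM m C) {g : β → α} (hg : LS g) :
    LSM (fun z => m (g z)) (fun z => C (g z)) where
  σ := LS.comp (g := fun z => (m z).σ) h.σ hg
  b := LS.comp (g := fun z => (m z).b) h.b hg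
  G := LS.comp (g := fun z => (m z).G) h.G hg
  A := LS.comp (g := fun z : α × ℕ => (m z.1).A z.2)
    (f := fun z : β × ℕ => (g z.1, z.2)) h.A (by fun_prop)
  N := LS.comp (g := fun z : α × ℕ × ℕ => (m z.1).N z.2.1 z.2.2)
    (f := fun z : β × ℕ × ℕ => (g z.1, z.2)) h.N (by fun_prop)
  W := LS.comp (g := fun z : α × ℕ × ℕ => (m z.1).W z.2.1 z.2.2)
    (f := fun z : β × ℕ × ℕ => (g z.1, z.2)) h.W (by fun_prop)
  q0 := LS.comp (g := fun z => (m z).q0) h.q0 hg
  M0 := LS.comp (g := fun z : α × ℕ => (m z.1).M0 z.2)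
    (f := fun z : β × ℕ => (g z.1, z.2)) h.M0 (by fun_prop)
  bd := LS.comp (g := C) h.bd hg
  ok := fun z => h.ok (g z)
  hC := fun z => h.hC (g z)

theorem sum_two_pow_lt (n : ℕ) : ∑ i ∈ range n, 2 ^ i < 2 ^ n := by
  induction n with
  | zero => simp
  | succ n ih =>
    rw [sum_range_succ, pow_succ]
    omega

theorem dig_lt' {p : ℕ} (hp : 0 < p) (S i : ℕ) : dig p S i < p := Nat.mod_lt _ hp

theorem LS.qN {m : α → Mach} {C p S t : α → ℕ} (h : LSM m C) (hp : LS p) (hp0 : ∀ z, 0 < p z)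
    (hS : LS S) (ht : LS t) : LS (fun z => (m z).qN (dig (p z) (S z)) (t z)) := by
  have hσ := h.σ
  have hσ' : LS (fun z : α × ℕ => (m z.1).σ) := (LSM.pull h LS.fst).σ
  have h1 : LS (fun z => ∑ o ∈ range (m z).σ,
      dig (p z) (S z) (7 * (t z * (m z).σ + o) + 4) * capPow 2 o (C z)) := by
    refine LS.sum (f := fun z o => dig (p z) (S z) (7 * (t z * (m z).σ + o) + 4) *
      capPow 2 o (C z)) (C := fun z => p z * C z) ?_ hσ (LS.mul hp h.bd) ?_
    · have hC := h.bd
      fun_prop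
    · intro z
      have h2 : ∑ o ∈ range (m z).σ, dig (p z) (S z) (7 * (t z * (m z).σ + o) + 4) *
          capPow 2 o (C z) ≤ ∑ o ∈ range (m z).σ, p z * 2 ^ o := by
        refine sum_le_sum fun o _ => Nat.mul_le_mul (dig_lt' (hp0 z) _ _).le (min_le_left _ _)
      refine h2.trans ?_
      rw [← mul_sum]
      exact Nat.mul_le_mul_left _ ((sum_two_pow_lt _).le.trans (h.hC z))
  refine LS.congr h1 fun z => ?_
  unfold Mach.qN tab
  refine sum_congr rfl fun i hi => ?_
  have hi' := mem_range.1 hi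
  have h3 : 2 ^ i ≤ C z := (Nat.pow_le_pow_right (by omega) hi'.le).trans (h.hC z)
  rw [capPow, min_eq_left (by omega)]

section

variable {m : α → Mach} {C p l j S x k : α → ℕ}

theorem LS.isE (h : LSM m C) (hp : LS p) (hl : LS l) (hS : LS S) :
    LS (fun z => (m z).isE (dig (p z) (S z)) (l z)) := by
  have hG := h.G
  unfold Mach.isE
  fun_prop

theorem LS.isN (h : LSM m C) (hp : LS p) (hl : LS l) (hS : LS S) :
    LS (fun z => (m z).isN (dig (p z) (S z)) (l z)) := by
  have hG := h.G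
  unfold Mach.isN
  fun_prop

theorem LS.isP (h : LSM m C) (hp : LS p) (hl : LS l) (hj : LS j) (hS : LS S) :
    LS (fun z => (m z).isP (dig (p z) (S z)) (l z) (j z)) := by
  have hG := h.G
  unfold Mach.isP
  fun_prop

theorem LS.isQ (h : LSM m C) (hp : LS p) (hl : LS l) (hj : LS j) (hS : LS S) :
    LS (fun z => (m z).isQ (dig (p z) (S z)) (l z) (j z)) := by
  have hE := LS.isE h hp hl hS
  have hb := h.b
  unfold Mach.isQ
  fun_prop

theorem LS.isF (h : LSM m C) (hp : LS p) (hl : LS l) (hj : LS j) (hS : LS S) :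
    LS (fun z => (m z).isF (dig (p z) (S z)) (l z) (j z)) := by
  have hE := LS.isE h hp hl hS
  have hb := h.b
  unfold Mach.isF
  fun_prop

theorem LS.cMd (h : LSM m C) (hp : LS p) (hl : LS l) (hj : LS j) (hS : LS S) :
    LS (fun z => (m z).cMd (l z) (j z) (dig (p z) (S z))) := by
  have hE := LS.isE h hp hl hS
  have hN := LS.isN h hp hl hS
  have hP := LS.isP h hp hl hj hS
  have hb := h.b
  have hG := h.G
  unfold Mach.cMd
  fun_prop

theorem LS.cNd (h : LSM m C) (hp : LS p) (hl : LS l) (hj : LS j) (hS : LS S) :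
    LS (fun z => (m z).cNd (l z) (j z) (dig (p z) (S z))) := by
  have hE := LS.isE h hp hl hS
  have hN := LS.isN h hp hl hS
  have hP := LS.isP h hp hl hj hS
  have hb := h.b
  have hG := h.G
  unfold Mach.cNd
  fun_prop

theorem LS.cSg (h : LSM m C) (hp : LS p) (hl : LS l) (hj : LS j) (hS : LS S) :
    LS (fun z => (m z).cSg (l z) (j z) (dig (p z) (S z))) := by
  have hE := LS.isE h hp hl hS
  have hN := LS.isN h hp hl hS
  have hP := LS.isP h hp hl hj hS
  have hb := h.b
  have hG := h.G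
  unfold Mach.cSg
  fun_prop

theorem LS.wd (h : LSM m C) : LS (fun z => (m z).wd) := by
  have hσ := h.σ
  have hb := h.b
  unfold Mach.wd
  fun_prop

theorem LS.nSv (h : LSM m C) (hp : LS p) (hl : LS l) (hj : LS j) (hS : LS S) (hk : LS k) :
    LS (fun z => (m z).nSv (l z) (j z) (dig (p z) (S z)) (k z)) := by
  have hQ := LS.isQ h hp hl hj hS
  have hσ := h.σ
  have hG := h.G
  have hw := LS.wd h
  unfold Mach.nSv
  fun_prop

variable (hLSFN : LSFN_stmt)

include hLSFN

theorem LS.nR (h : LSM m C) (hp : LS p) (hp0 : ∀ z, 0 < p z) (hl : LS l) (hj : LS j) (hS : LS S)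
    (hk : LS k) : LS (fun z => (m z).nR (p z) (l z) (j z) (dig (p z) (S z)) (k z)) := by
  have hE := LS.isE h hp hl hS
  have hN := LS.isN h hp hl hS
  have hb := h.b
  have hG := h.G
  have hw := LS.wd h
  have hq : LS (fun z => (m z).qN (dig (p z) (S z)) (l z / ((m z).G + 2) + 1)) :=
    LS.qN h hp hp0 hS (by fun_prop)
  have ho : LS (fun z => (m z).outc (dig (p z) (S z) (7 * (l z + 1) + 2))
      ((m z).qN (dig (p z) (S z)) (l z / ((m z).G + 2) + 1)) (j z / (2 * (m z).b + 1))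
      (k z % (m z).wd)) :=
    (hLSFN (D := fun _ _ => 0) (X := fun _ _ => 0) h hp hp0
      (i := fun z => dig (p z) (S z) (7 * (l z + 1) + 2)) (by fun_prop) hq
      (y := fun z => j z / (2 * (m z).b + 1)) (by fun_prop)
      (r := fun z => k z % (m z).wd) (by fun_prop) (by fun_prop) (by fun_prop)).2.1
  have hi : LS (fun z => invN (p z) (j z / (2 * (m z).G + 3) + 1)) :=
    LS.invN hp (by fun_prop) hp0
  unfold Mach.nR
  fun_prop

theorem LS.nQ (h : LSM m C) (hp : LS p) (hp0 : ∀ z, 0 < p z) (hl : LS l) (hj : LS j) (hS : LS S)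
    (hk : LS k) : LS (fun z => (m z).nQ (l z) (j z) (dig (p z) (S z)) (k z)) := by
  have hQ := LS.isQ h hp hl hj hS
  have hb := h.b
  have hG := h.G
  have hσ := h.σ
  have hq : LS (fun z => (m z).qN (dig (p z) (S z)) (l z / ((m z).G + 2) + 1)) :=
    LS.qN h hp hp0 hS (by fun_prop)
  have ho : LS (fun z => (m z).ta (dig (p z) (S z) (7 * (l z + 1) + 2))
      ((m z).qN (dig (p z) (S z)) (l z / ((m z).G + 2) + 1)) (j z / (2 * (m z).b + 1))
      (j z % (2 * (m z).b + 1) / 2)) :=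
    (hLSFN (D := fun _ _ => 0) (X := fun _ _ => 0) h hp hp0
      (i := fun z => dig (p z) (S z) (7 * (l z + 1) + 2)) (by fun_prop) hq
      (y := fun z => j z / (2 * (m z).b + 1)) (by fun_prop)
      (r := fun z => j z % (2 * (m z).b + 1) / 2) (by fun_prop) (by fun_prop)
      (by fun_prop)).2.2.1
  unfold Mach.nQ
  fun_prop

theorem LS.nAc (h : LSM m C) (hp : LS p) (hp0 : ∀ z, 0 < p z) (hl : LS l) (hj : LS j) (hS : LS S)
    (hk : LS k) : LS (fun z => (m z).nAc (p z) (l z) (j z) (dig (p z) (S z)) (k z)) := by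
  have hQ := LS.isQ h hp hl hj hS
  have hF := LS.isF h hp hl hj hS
  have hb := h.b
  have hG := h.G
  have hσ := h.σ
  have hw := LS.wd h
  have hσ' : LS (fun z : α × ℕ => (m z.1).σ) := (LSM.pull h LS.fst).σ
  have hG' : LS (fun z : α × ℕ => (m z.1).G) := (LSM.pull h LS.fst).G
  have hw' : LS (fun z : α × ℕ => (m z.1).wd) := LS.wd (LSM.pull h LS.fst)
  have hq : LS (fun z => (m z).qN (dig (p z) (S z)) (l z / ((m z).G + 2) + 1)) :=
    LS.qN h hp hp0 hS (by fun_prop)
  have ho : LS (fun z => (m z).fN (p z) (dig (p z) (S z) (7 * (l z + 1) + 2))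
      ((m z).qN (dig (p z) (S z)) (l z / ((m z).G + 2) + 1)) (j z / (2 * (m z).b + 1))
      (j z % (2 * (m z).b + 1) / 2)
      (fun o => (dig (p z) (S z) (7 * ((m z).G * (m z).wd + o)) +
        (p z - dig (p z) (S z) (7 * (k z * (3 * (m z).σ) + o) + 6))) % p z)
      (fun x => dig (p z) (S z) (7 * x))) :=
    (hLSFN
      (D := fun z o => (dig (p z) (S z) (7 * ((m z).G * (m z).wd + o)) +
        (p z - dig (p z) (S z) (7 * (k z * (3 * (m z).σ) + o) + 6))) % p z)
      (X := fun z x => dig (p z) (S z) (7 * x)) h hp hp0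
      (i := fun z => dig (p z) (S z) (7 * (l z + 1) + 2)) (by fun_prop) hq
      (y := fun z => j z / (2 * (m z).b + 1)) (by fun_prop)
      (r := fun z => j z % (2 * (m z).b + 1) / 2) (by fun_prop) (by fun_prop)
      (by fun_prop)).1
  unfold Mach.nAc
  fun_prop

theorem LS.opA (h : LSM m C) (hp : LS p) (hp0 : ∀ z, 0 < p z) (hl : LS l) (hj : LS j) (hS : LS S)
    (hx : LS x) : LS (fun z => (m z).opA (p z) (l z) (j z) (dig (p z) (S z)) (x z)) := by
  have h1 := LS.nR hLSFN h hp hp0 hl hj hS (k := fun z => x z / 7) (by fun_prop)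
  have h2 := LS.nQ hLSFN h hp hp0 hl hj hS (k := fun z => x z / 7) (by fun_prop)
  have h3 := LS.nAc hLSFN h hp hp0 hl hj hS (k := fun z => x z / 7) (by fun_prop)
  have h4 := LS.nSv h hp hl hj hS (k := fun z => x z / 7) (by fun_prop)
  have h5 := LS.cMd h hp hl hj hS
  have h6 := LS.cNd h hp hl hj hS
  have h7 := LS.cSg h hp hl hj hS
  unfold Mach.opA
  fun_prop

theorem LS.baseA (h : LSM m C) (hp : LS p) (hp0 : ∀ z, 0 < p z) (hS : LS S)
    (hx : LS x) : LS (fun z => (m z).baseA (p z) (dig (p z) (S z)) (x z)) := by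
  have hw := LS.wd h
  have hG := h.G
  have hq0 := h.q0
  have hq : LS (fun z => (m z).qN (dig (p z) (S z)) 0) :=
    LS.qN h hp hp0 hS (by fun_prop)
  have hM : LS (fun z => (m z).M0 ((m z).qN (dig (p z) (S z)) 0)) :=
    LS.comp (g := fun z : α × ℕ => (m z.1).M0 z.2)
      (f := fun z : α => (z, (m z).qN (dig (p z) (S z)) 0)) h.M0 (by fun_prop)
  have ht : LS (fun z => (m z).topc (m z).q0 ((m z).qN (dig (p z) (S z)) 0)
      ((m z).M0 ((m z).qN (dig (p z) (S z)) 0)) (x z / 7 % (m z).wd)) :=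
    (hLSFN (D := fun _ _ => 0) (X := fun _ _ => 0) h hp hp0
      (i := fun z => (m z).q0) hq0 hq hM
      (r := fun z => x z / 7 % (m z).wd) (by fun_prop) (by fun_prop) (by fun_prop)).2.2.2
  unfold Mach.baseA
  fun_prop

theorem LSOP : LSOP_stmt := by
  intro α _ m C p h hp hp0
  constructor
  · exact LS.opA (α := α × ℕ × ℕ × ℕ × ℕ) (m := fun z => m z.1) (C := fun z => C z.1)
      (p := fun z => p z.1) (l := fun z => z.2.1) (j := fun z => z.2.2.1)
      (S := fun z => z.2.2.2.1) (x := fun z => z.2.2.2.2) hLSFN (LSM.pull h LS.fst)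
      (by fun_prop) (fun z => hp0 z.1) (by fun_prop) (by fun_prop) (by fun_prop) (by fun_prop)
  · exact LS.baseA (α := α × ℕ × ℕ) (m := fun z => m z.1) (C := fun z => C z.1)
      (p := fun z => p z.1) (S := fun z => z.2.1) (x := fun z => z.2.2) hLSFN
      (LSM.pull h LS.fst) (by fun_prop) (fun z => hp0 z.1) (by fun_prop) (by fun_prop)

end

end Pool.Agent.Helper37.Ram
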